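import Pool.Agent.W2helper22.CU.Stmts3
import Pool.Agent.W2helper22.CU.Stmts

/-!
# Project CU3, piece LINK: passing to the common neighbourhood of a clique
-/

set_option autoImplicit false

namespace Pool.Agent.W2helper39.CU

open Finset Pool.Agent.H540R2 Pool.Agent.W2helper86.KQ Pool.Agent.W2helper22.CU

variable {n : ℕ}

/-- `u` is a common neighbour of `Z` -/
def Nb (H : SimpleGraph (Fin n)) (Z : Finset (Fin n)) (u : Fin n) : Prop :=
  u ∉ Z ∧ ∀ z ∈ Z, H.Adj z u

/-- the graph on the common neighbourhood of `Z` -/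
def lk (H : SimpleGraph (Fin n)) (Z : Finset (Fin n)) : SimpleGraph (Fin n) where
  Adj u v := H.Adj u v ∧ Nb H Z u ∧ Nb H Z v
  symm := ⟨fun _ _ h => ⟨h.1.symm, h.2.2, h.2.1⟩⟩
  loopless := ⟨fun _ h => h.1.ne rfl⟩

/-- all pairs in `Z` and between `Z` and the common neighbours -/
def Jn (H : SimpleGraph (Fin n)) (Z : Finset (Fin n)) (u v : Fin n) : Prop :=
  (u ∈ Z ∧ v ∈ Z) ∨ (u ∈ Z ∧ Nb H Z v) ∨ (v ∈ Z ∧ Nb H Z u)

open Classical in
/-- the substitution -/
noncomputable def sg (H : SimpleGraph (Fin n)) (Z : Finset (Fin n)) :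
    Fin (n.choose 2) → Fin (n.choose 2) ⊕ Bool := fun e =>
  if Jn H Z ((pairNo n).symm e).1.1 ((pairNo n).symm e).1.2 then Sum.inr true
  else if (lk H Z).Adj ((pairNo n).symm e).1.1 ((pairNo n).symm e).1.2 then Sum.inl e
  else Sum.inr false

theorem graph_adj_iff (x : Fin (n.choose 2) → Bool) (p : {p : Fin n × Fin n // p.1 < p.2}) :
    (graph x).Adj p.1.1 p.1.2 ↔ x (pairNo n p) = true := by
  unfold graph
  rw [SimpleGraph.fromRel_adj]
  constructor
  · rintro ⟨_, h | h⟩
    · exact h.2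
    · exact absurd h.1 (lt_asymm p.2)
  · intro h
    exact ⟨p.2.ne, Or.inl ⟨p.2, h⟩⟩

theorem sub_eq (H : SimpleGraph (Fin n)) (Z : Finset (Fin n)) (x : Fin (n.choose 2) → Bool)
    (hx : graph x ≤ lk H Z) :
    sub (sg H Z) x = bits (fun u v => Jn H Z u v ∨ (graph x).Adj u v) := by
  classical
  funext e
  have h := graph_adj_iff x ((pairNo n).symm e)
  rw [Equiv.apply_symm_apply] at h
  unfold sub sg bits
  by_cases h1 : Jn H Z ((pairNo n).symm e).1.1 ((pairNo n).symm e).1.2
  · rw [if_pos h1]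
    simp only [Sum.elim_inr, id, h1, true_or, decide_true]
  · rw [if_neg h1]
    by_cases h2 : (lk H Z).Adj ((pairNo n).symm e).1.1 ((pairNo n).symm e).1.2
    · rw [if_pos h2]
      simp only [Sum.elim_inl, h1, false_or]
      rw [Bool.eq_iff_iff, decide_eq_true_iff]
      exact h.symm
    · rw [if_neg h2]
      simp only [Sum.elim_inr, id, h1, false_or]
      symm
      rw [decide_eq_false_iff_not]
      exact fun h3 => h2 (hx h3)

theorem graph_sub (H : SimpleGraph (Fin n)) (Z : Finset (Fin n)) (x : Fin (n.choose 2) → Bool)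
    (hx : graph x ≤ lk H Z) (u v : Fin n) :
    (graph (sub (sg H Z) x)).Adj u v ↔ u ≠ v ∧ (Jn H Z u v ∨ (graph x).Adj u v) := by
  rw [sub_eq H Z x hx, graph_bits]
  intro u v h
  rcases h with h | h
  · left
    rcases h with h | h | h
    · exact Or.inl h.symm
    · exact Or.inr (Or.inr h)
    · exact Or.inr (Or.inl h)
  · exact Or.inr h.symm

theorem graph_sub_le (H : SimpleGraph (Fin n)) (Z : Finset (Fin n))
    (hZ : H.IsClique (Z : Set (Fin n))) (x : Fin (n.choose 2) → Bool)
    (hx : graph x ≤ lk H Z) : graph (sub (sg H Z) x) ≤ H := by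
  intro u v h
  rw [graph_sub H Z x hx] at h
  obtain ⟨hne, h | h⟩ := h
  · rcases h with h | h | h
    · exact hZ (mem_coe.2 h.1) (mem_coe.2 h.2) hne
    · exact h.2.2 u h.1
    · exact (h.2.2 v h.1).symm
  · exact (hx h).1

/-- in a clique with at least two vertices every vertex is a common neighbour -/
theorem nb_of_clique {H : SimpleGraph (Fin n)} {Z S : Finset (Fin n)} {m : ℕ} (hm : 2 ≤ m)
    (hS : (lk H Z).IsNClique m S) {u : Fin n} (hu : u ∈ S) : Nb H Z u := by
  have h1 : 1 < S.card := by rw [hS.card_eq]; omega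
  obtain ⟨v, hv, hne⟩ := exists_mem_ne h1 u
  exact (hS.isClique (mem_coe.2 hu) (mem_coe.2 hv) hne.symm).2.1

theorem clique_union {H : SimpleGraph (Fin n)} {Z S : Finset (Fin n)} {k : ℕ}
    (hk : Z.card + 2 ≤ k) (hZ : H.IsClique (Z : Set (Fin n)))
    (hS : (lk H Z).IsNClique (k - Z.card) S) :
    Disjoint S Z ∧ H.IsNClique k (S ∪ Z) := by
  have hnb : ∀ u ∈ S, Nb H Z u := fun u hu => nb_of_clique (by omega) hS hu
  have hd : Disjoint S Z := disjoint_left.2 fun u hu => (hnb u hu).1
  refine ⟨hd, ⟨?_, ?_⟩⟩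
  · intro u hu v hv hne
    rw [mem_coe, mem_union] at hu hv
    rcases hu with hu | hu <;> rcases hv with hv | hv
    · exact (hS.isClique (mem_coe.2 hu) (mem_coe.2 hv) hne).1
    · exact ((hnb u hu).2 v hv).symm
    · exact (hnb v hv).2 u hu
    · exact hZ (mem_coe.2 hu) (mem_coe.2 hv) hne
  · rw [card_union_of_disjoint hd, hS.card_eq]
    omega

theorem clique_sdiff {H : SimpleGraph (Fin n)} {Z T : Finset (Fin n)} {k : ℕ}
    (hT : H.IsNClique k T) (hsub : Z ⊆ T) :
    (lk H Z).IsNClique (k - Z.card) (T \ Z) := by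
  have hnb : ∀ u ∈ T \ Z, Nb H Z u := by
    intro u hu
    rw [mem_sdiff] at hu
    refine ⟨hu.2, fun z hz => hT.isClique (mem_coe.2 (hsub hz)) (mem_coe.2 hu.1) ?_⟩
    rintro rfl
    exact hu.2 hz
  refine ⟨?_, by rw [card_sdiff_of_subset hsub, hT.card_eq]⟩
  intro u hu v hv hne
  exact ⟨hT.isClique (mem_coe.2 (mem_sdiff.1 (mem_coe.1 hu)).1)
    (mem_coe.2 (mem_sdiff.1 (mem_coe.1 hv)).1) hne, hnb u (mem_coe.1 hu), hnb v (mem_coe.1 hv)⟩

theorem dg_link {H : SimpleGraph (Fin n)} {Z : Finset (Fin n)} {k : ℕ}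
    (hk : Z.card + 2 ≤ k) (hZ : H.IsClique (Z : Set (Fin n))) (Y : Finset (Fin n))
    (hY : Disjoint Y Z) : dg (lk H Z) (k - Z.card) Y = dg H k (Z ∪ Y) := by
  classical
  unfold dg cl
  refine card_bij' (fun S _ => S ∪ Z) (fun T _ => T \ Z) ?_ ?_ ?_ ?_
  · intro S hS
    simp only [mem_filter, mem_univ, true_and] at hS ⊢
    refine ⟨(clique_union hk hZ hS.1).2, ?_⟩
    exact union_subset subset_union_right (hS.2.trans subset_union_left)
  · intro T hT
    simp only [mem_filter, mem_univ, true_and] at hT ⊢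
    refine ⟨clique_sdiff hT.1 (subset_union_left.trans hT.2), ?_⟩
    intro y hy
    exact mem_sdiff.2 ⟨hT.2 (mem_union_right _ hy), disjoint_left.1 hY hy⟩
  · intro S hS
    simp only [mem_filter, mem_univ, true_and] at hS
    have hd := (clique_union hk hZ hS.1).1
    exact union_sdiff_cancel_right hd
  · intro T hT
    simp only [mem_filter, mem_univ, true_and] at hT
    exact sdiff_union_of_subset (subset_union_left.trans hT.2)

theorem dg_link_zero {H : SimpleGraph (Fin n)} {Z : Finset (Fin n)} {k : ℕ}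
    (hk : Z.card + 2 ≤ k) (hZ : H.IsClique (Z : Set (Fin n))) (Y : Finset (Fin n))
    (hY : ¬ Disjoint Y Z) : dg (lk H Z) (k - Z.card) Y = 0 := by
  classical
  unfold dg cl
  rw [card_eq_zero, filter_eq_empty_iff]
  intro S hS hsub
  simp only [mem_filter, mem_univ, true_and] at hS
  exact hY ((clique_union hk hZ hS).1.mono_left hsub)

theorem p_link (hO : P_ORS) : P_LINK := by
  classical
  intro n k H Z C hk hZ hC
  obtain ⟨C', h1, h2, h3⟩ := hO (n.choose 2) (n.choose 2) 1 C (fun _ => sg H Z)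
  refine ⟨lk H Z, C', ?_, by omega, by omega, fun Y hY => dg_link hk hZ Y hY,
    fun Y hY => dg_link_zero hk hZ Y hY⟩
  have h3' : ∀ x, C'.eval x = true ↔ C.eval (sub (sg H Z) x) = true := fun x =>
    (h3 x).trans ⟨fun ⟨_, h⟩ => h, fun h => ⟨0, h⟩⟩
  intro x hx
  have hle := graph_sub_le H Z hZ x hx
  refine ⟨fun hcl => ?_, fun hcol => ?_⟩
  · rw [h3']
    refine (hC _ hle).1 ?_
    unfold SimpleGraph.CliqueFree at hcl ⊢
    push Not at hcl ⊢
    obtain ⟨S, hS⟩ := hcl
    have hS' : (lk H Z).IsNClique (k - Z.card) S := hS.mono hx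
    have hnb : ∀ u ∈ S, Nb H Z u := fun u hu => nb_of_clique (by omega) hS' hu
    have hd : Disjoint S Z := (clique_union hk hZ hS').1
    refine ⟨S ∪ Z, ⟨?_, (clique_union hk hZ hS').2.card_eq⟩⟩
    intro u hu v hv hne
    rw [graph_sub H Z x hx]
    refine ⟨hne, ?_⟩
    rw [mem_coe, mem_union] at hu hv
    rcases hu with hu | hu <;> rcases hv with hv | hv
    · exact Or.inr (hS.isClique (mem_coe.2 hu) (mem_coe.2 hv) hne)
    · exact Or.inl (Or.inr (Or.inr ⟨hv, hnb u hu⟩))
    · exact Or.inl (Or.inr (Or.inl ⟨hu, hnb v hv⟩))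
    · exact Or.inl (Or.inl ⟨hu, hv⟩)
  · have hcol2 : (graph (sub (sg H Z) x)).Colorable (k - 1) := by
      obtain ⟨c⟩ := hcol
      have hcard : Fintype.card (Fin (k - Z.card - 1) ⊕ Z) = k - 1 := by
        rw [Fintype.card_sum, Fintype.card_fin, Fintype.card_coe]
        omega
      rw [← hcard]
      refine (SimpleGraph.Coloring.mk
        (fun v => if h : v ∈ Z then (Sum.inr ⟨v, h⟩ : Fin (k - Z.card - 1) ⊕ Z)
          else Sum.inl (c v)) ?_).colorable
      intro u v h
      rw [graph_sub H Z x hx] at h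
      obtain ⟨hne, h⟩ := h
      by_cases hu : u ∈ Z
      · by_cases hv : v ∈ Z
        · simp only [hu, hv, dite_true]
          intro h4
          exact hne (Subtype.ext_iff.1 (Sum.inr_injective h4))
        · simp only [hu, hv, dite_true, dite_false]
          exact Sum.inr_ne_inl
      · by_cases hv : v ∈ Z
        · simp only [hu, hv, dite_true, dite_false]
          exact Sum.inl_ne_inr
        · simp only [hu, hv, dite_false]
          have h5 : (graph x).Adj u v := by
            rcases h with h | h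
            · rcases h with h | h | h
              · exact absurd h.1 hu
              · exact absurd h.1 hu
              · exact absurd h.1 hv
            · exact h
          intro h6
          exact c.valid h5 (Sum.inl_injective h6)
    have h4 := (hC _ hle).2 hcol2
    rcases h5 : C'.eval x with _ | _
    · rfl
    · rw [h3'] at h5
      rw [h4] at h5
      exact absurd h5 Bool.false_ne_true

end Pool.Agent.W2helper39.CU
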