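import Pool.Agent.W2helper22.CU.Stmts3

/-!
# Project CU3, piece ONE: a circuit reads an edge between `Z` and each common neighbour
-/

set_option autoImplicit false

namespace Pool.Agent.W2helper39.CU

open Finset Pool.Agent.H540R2 Pool.Agent.W2helper86.KQ Pool.Agent.W2helper22.CU

/-- the variables of a node -/
def nvars {n : ℕ} : Node n → Finset (Fin n)
  | .var i => {i}
  | .const _ => ∅
  | .gate _ => ∅

/-- the variables of a gate -/
def gvars {n : ℕ} : Gate n → Finset (Fin n)
  | .and a b => nvars a ∪ nvars b
  | .or a b => nvars a ∪ nvars b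
  | .not a => nvars a

/-- the variables that are read by a circuit -/
def reads {n : ℕ} (C : H540R2.Circuit n) : Finset (Fin n) :=
  nvars C.out ∪ (range C.size).biUnion fun i => gvars (C.gate i)

theorem card_nvars {n : ℕ} (a : Node n) : (nvars a).card ≤ 1 := by
  cases a <;> simp [nvars]

theorem card_gvars {n : ℕ} (a : Gate n) : (gvars a).card ≤ 2 := by
  cases a with
  | and a b => exact (card_union_le _ _).trans (by have := card_nvars a; have := card_nvars b; omega)
  | or a b => exact (card_union_le _ _).trans (by have := card_nvars a; have := card_nvars b; omega)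
  | not a => exact (card_nvars a).trans (by norm_num)

theorem card_reads {n : ℕ} (C : H540R2.Circuit n) : (reads C).card ≤ 2 * C.size + 1 := by
  refine (card_union_le _ _).trans ?_
  have h1 := card_nvars C.out
  have h2 : ((range C.size).biUnion fun i => gvars (C.gate i)).card ≤ C.size * 2 := by
    refine card_biUnion_le.trans ?_
    refine (sum_le_card_nsmul _ _ 2 fun i _ => card_gvars _).trans ?_
    simp
  omega

theorem node_congr {n : ℕ} {x y : Fin n → Bool} {v w : ℕ → Bool} (a : Node n)
    (h : ∀ i ∈ nvars a, x i = y i) (hv : ∀ j, a.wires j ≠ 0 → v j = w j) :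
    a.eval x v = a.eval y w := by
  cases a with
  | var i => exact h i (by simp [nvars])
  | const b => rfl
  | gate j => exact hv j (by simp [Node.wires])

theorem gate_congr {n : ℕ} {x y : Fin n → Bool} {v w : ℕ → Bool} (g : Gate n)
    (h : ∀ i ∈ gvars g, x i = y i) (hv : ∀ j, v j = w j) :
    g.eval x v = g.eval y w := by
  cases g with
  | and a b =>
    have h1 := node_congr (v := v) (w := w) a (fun i hi => h i (mem_union_left _ hi))
      (fun j _ => hv j)
    have h2 := node_congr (v := v) (w := w) b (fun i hi => h i (mem_union_right _ hi))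
      (fun j _ => hv j)
    simp only [Gate.eval, h1, h2]
  | or a b =>
    have h1 := node_congr (v := v) (w := w) a (fun i hi => h i (mem_union_left _ hi))
      (fun j _ => hv j)
    have h2 := node_congr (v := v) (w := w) b (fun i hi => h i (mem_union_right _ hi))
      (fun j _ => hv j)
    simp only [Gate.eval, h1, h2]
  | not a =>
    have h1 := node_congr (v := v) (w := w) a (fun i hi => h i hi) (fun j _ => hv j)
    simp only [Gate.eval, h1]

theorem eval_congr {n : ℕ} (C : H540R2.Circuit n) {x y : Fin n → Bool}
    (h : ∀ i ∈ reads C, x i = y i) : C.eval x = C.eval y := by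
  have hval : ∀ i < C.size, C.val x i = C.val y i := by
    intro i
    induction i using Nat.strong_induction_on with
    | _ i ih =>
      intro hi
      rw [H540R2.Circuit.val, H540R2.Circuit.val]
      apply gate_congr
      · intro a ha
        exact h a (mem_union_right _ (mem_biUnion.2 ⟨i, mem_range.2 hi, ha⟩))
      · intro j
        by_cases hj : j < i
        · simp only [hj, dite_true]
          exact ih j hj (hj.trans hi)
        · simp only [hj, dite_false]
  exact node_congr _ (fun i hi => h i (mem_union_left _ hi)) fun j hj => hval j (C.out_lt j hj)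

theorem card_pair_insert {n : ℕ} {H : SimpleGraph (Fin n)} {k : ℕ} {Z : Finset (Fin n)}
    (hZ : Z.card + 1 = k) {s : Finset (Fin n)} (hs : H.IsNClique k s) (hsub : Z ⊆ s) :
    ∃ w, w ∉ Z ∧ s = insert w Z := by
  have h1 : (s \ Z).card = 1 := by
    rw [card_sdiff_of_subset hsub, hs.card_eq]
    omega
  obtain ⟨w, hw⟩ := card_eq_one.1 h1
  have hw' : w ∈ s \ Z := by rw [hw]; simp
  refine ⟨w, (mem_sdiff.1 hw').2, ?_⟩
  rw [insert_eq, ← hw, sdiff_union_of_subset hsub]

/-- the input whose edges are the pairs of the vertices of `s` -/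
theorem graph_le {n : ℕ} {H : SimpleGraph (Fin n)} {k : ℕ} {s : Finset (Fin n)}
    (hs : H.IsNClique k s) {t : Finset (Fin n)} (ht : t ⊆ s) :
    graph (bits (fun u v => u ∈ t ∧ v ∈ t)) ≤ H := by
  intro u v h
  rw [graph_bits _ (fun u v h => h.symm)] at h
  exact hs.isClique (mem_coe.2 (ht h.2.1)) (mem_coe.2 (ht h.2.2)) h.1

theorem p_one : P_ONE := by
  classical
  intro n k H Z C hk hZ hcl hC
  -- the cliques that contain `Z` correspond to vertices
  have key : ∀ s ∈ (cl H k).filter (fun s => Z ⊆ s), ∃ e ∈ reads C,
      ∃ w, w ∉ Z ∧ s = insert w Z ∧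
        ((((pairNo n).symm e).1.1 = w ∧ ((pairNo n).symm e).1.2 ∈ Z) ∨
          (((pairNo n).symm e).1.2 = w ∧ ((pairNo n).symm e).1.1 ∈ Z)) := by
    intro s hs
    rw [mem_filter] at hs
    obtain ⟨hs1, hsub⟩ := hs
    have hs1 : H.IsNClique k s := by
      unfold cl at hs1
      exact (mem_filter.1 hs1).2
    obtain ⟨w, hw, hs2⟩ := card_pair_insert hZ hs1 hsub
    by_contra hcon
    push Not at hcon
    have hagree : ∀ e ∈ reads C, bits (fun u v => u ∈ s ∧ v ∈ s) e =
        bits (fun u v => u ∈ Z ∧ v ∈ Z) e := by
      intro e he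
      have h1 := hcon e he w hw hs2
      unfold bits
      rw [decide_eq_decide]
      set p := (pairNo n).symm e with hp
      have hlt : p.1.1 < p.1.2 := p.2
      constructor
      · rintro ⟨h2, h3⟩
        rw [hs2, mem_insert] at h2 h3
        rcases h2 with h2 | h2
        · rcases h3 with h3 | h3
          · exact absurd (h2.trans h3.symm) hlt.ne
          · exact absurd h3 (h1.1 h2)
        · rcases h3 with h3 | h3
          · exact absurd h2 (h1.2 h3)
          · exact ⟨h2, h3⟩
      · rintro ⟨h2, h3⟩
        exact ⟨hsub h2, hsub h3⟩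
    have heq := eval_congr C hagree
    have ht : C.eval (bits (fun u v => u ∈ s ∧ v ∈ s)) = true := by
      refine (hC _ (graph_le hs1 (Subset.refl s))).1 ?_
      intro hfree
      refine hfree s ⟨?_, hs1.card_eq⟩
      intro u hu v hv huv
      rw [graph_bits _ (fun u v h => h.symm)]
      exact ⟨huv, mem_coe.1 hu, mem_coe.1 hv⟩
    have hf : C.eval (bits (fun u v => u ∈ Z ∧ v ∈ Z)) = false := by
      refine (hC _ (graph_le hs1 hsub)).2 ?_
      -- colour `Z` with distinct colours and everything else with one of them
      have hcard : Fintype.card Z = k - 1 := by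
        rw [Fintype.card_coe]; omega
      have hne : Z.Nonempty := by
        rw [← card_pos]; omega
      obtain ⟨z0, hz0⟩ := hne
      have hcol : (graph (bits (fun u v => u ∈ Z ∧ v ∈ Z))).Colorable (Fintype.card Z) := by
        refine (SimpleGraph.Coloring.mk (fun v => if h : v ∈ Z then (⟨v, h⟩ : Z) else ⟨z0, hz0⟩)
          ?_).colorable
        intro u v h
        rw [graph_bits _ (fun u v h => h.symm)] at h
        simp only [h.2.1, h.2.2, dite_true]
        intro h3
        exact h.1 (Subtype.ext_iff.1 h3)
      rwa [hcard] at hcol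
    rw [heq, hf] at ht
    exact Bool.false_ne_true ht
  choose e he w hw hs hor using key
  unfold dg
  refine le_trans ?_ (card_reads C)
  rw [← card_attach]
  apply card_le_card_of_injOn
    (fun s : {s // s ∈ (cl H k).filter (fun s => Z ⊆ s)} => e s.1 s.2)
    (fun s _ => mem_coe.2 (he s.1 s.2))
  rintro ⟨s1, h1⟩ _ ⟨s2, h2⟩ _ h12
  simp only at h12
  have a1 := hor s1 h1
  have a2 := hor s2 h2
  rw [h12] at a1
  have hww : w s1 h1 = w s2 h2 := by
    rcases a1 with a1 | a1 <;> rcases a2 with a2 | a2
    · rw [← a1.1, a2.1]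
    · exact absurd (a2.1 ▸ a1.2) (hw s2 h2)
    · exact absurd (a1.1 ▸ a2.2) (hw s1 h1)
    · rw [← a1.1, a2.1]
  apply Subtype.ext
  show s1 = s2
  rw [hs s1 h1, hs s2 h2, hww]

end Pool.Agent.W2helper39.CU
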